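import Pool.Agent.H10.GM.Targets2
import Pool.Agent.H18.GM.CRA
import Pool.Agent.H18.GM.CRB
import Pool.Agent.H51.GM.CRC
import Pool.Agent.H18.GM.EXT
import Pool.Agent.H13.GM.GRF
import Pool.Agent.H37.GM.GT
import Pool.Agent.H48.GM.KG
import Pool.Agent.H95.GM.KM
import Pool.Agent.H54.GM.LNC
import Pool.Agent.H55.GM.MGR
import Pool.Agent.H48.GM.MSA
import Pool.Agent.H34.GM.MSH
import Pool.Agent.H60.GM.MSM
import Pool.Agent.H1.GM.MSP
import Pool.Agent.H6.GM.NLA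
import Pool.Agent.H88.GM.NLR
import Pool.Agent.H39.GM.NLS
import Pool.Agent.H95.GM.NLU
import Pool.Agent.H90.GM.PAT
import Pool.Agent.H70.GM.PS
import Pool.Agent.H37.GM.PTH
import Pool.Agent.H33.GM.SEG
import Pool.Agent.H49.GM.SEL
import Pool.Agent.H51.GM.SELS
import Pool.Agent.H89.GM.SPA
import Pool.Agent.H34.GM.SPL
import Pool.Agent.H60.GM.TOP
import Pool.Agent.H53.GW.MEN
import Pool.Agent.H69.GM.GRP
import Pool.Agent.H69.GM.GMI
import Pool.Agent.H35.GM.MSB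


/-!
# The excluded grid theorem, for NLC-width

All rows of the board `gm_modules` put together: for every `r` there is `k` such that every finite
graph without the `r × r` grid as a minor has NLC-width at most `k`.
-/

set_option autoImplicit false

namespace Pool.Agent.H10.GM

open Pool.Agent.H8.MC

theorem grp : T_GRP :=
  Pool.Agent.H69.GM.pf_GRP (Pool.Agent.H90.GM.pf_PAT (Pool.Agent.H37.GM.pf_GT Pool.Agent.H70.GM.pf_PS))
    Pool.Agent.H33.GM.pf_SEG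
    (Pool.Agent.H51.GM.pf_CRC Pool.Agent.H37.GM.pf_PTH
      (Pool.Agent.H18.GM.pf_CRA Pool.Agent.H53.GW.men) Pool.Agent.H18.GM.pf_CRB)

theorem mgr : T_MGR :=
  Pool.Agent.H55.GM.pf_MGR (Pool.Agent.H49.GM.pf_SEL (Pool.Agent.H51.GM.pf_SELS grp))
    (Pool.Agent.H34.GM.pf_SPL Pool.Agent.H89.GM.pf_SPA) Pool.Agent.H54.GM.pf_LNC
    Pool.Agent.H95.GM.pf_KM Pool.Agent.H48.GM.pf_KG

theorem nls : T_NLS :=
  Pool.Agent.H39.GM.pf_NLS Pool.Agent.H88.GM.pf_NLR Pool.Agent.H95.GM.pf_NLU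
    Pool.Agent.H6.GM.pf_NLA

theorem msh : T_MSH :=
  Pool.Agent.H34.GM.pf_MSH (Pool.Agent.H48.GM.pf_MSA Pool.Agent.H18.GM.pf_EXT)
    (Pool.Agent.H35.GM.pf_MSB (Pool.Agent.H1.GM.pf_MSP (Pool.Agent.H60.GM.pf_MSM Pool.Agent.H53.GW.men))
      Pool.Agent.H18.GM.pf_EXT) nls

/-- the excluded grid theorem -/
theorem t_grid : T_GRID :=
  Pool.Agent.H13.GM.pf_GRF mgr msh (Pool.Agent.H60.GM.pf_TOP nls) Pool.Agent.H69.GM.pf_GMI

end Pool.Agent.H10.GM
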