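import Pool.Agent.H55.GW.Targets1

/-!
# Connected sets, paths and the excluded grid theorem: definitions and basic facts

All graphs are given by a symmetric relation `E` (loops do not matter). `RIn E S x y` says that there
is a walk from `x` to `y` inside `S`, `Lnk E n X Y` that there are `n` disjoint such walks from `X` to
`Y` (see `H55/GW/Defs.lean`).
-/

set_option autoImplicit false

namespace Pool.Agent.H10.GM

open Pool.Agent.H55.GW

/-- the relation is symmetric -/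
def Sy {V : Type} (E : V → V → Prop) : Prop := ∀ u v, E u v → E v u

/-- `S` is a nonempty connected set -/
def Cn {V : Type} (E : V → V → Prop) (S : Set V) : Prop :=
  S.Nonempty ∧ ∀ x ∈ S, ∀ y ∈ S, RIn E S x y

/-- some vertex of `A` is adjacent to some vertex of `B` -/
def Tch {V : Type} (E : V → V → Prop) (A B : Set V) : Prop := ∃ a ∈ A, ∃ b ∈ B, E a b

/-- the `r × r` grid is a minor -/
def GrM {V : Type} (r : ℕ) (E : V → V → Prop) : Prop := ∃ B : ℕ → ℕ → Set V,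
  (∀ i < r, ∀ j < r, Cn E (B i j)) ∧
  (∀ i < r, ∀ j < r, ∀ i' < r, ∀ j' < r, (i ≠ i' ∨ j ≠ j') → Disjoint (B i j) (B i' j')) ∧
  (∀ i j, i + 1 < r → j < r → Tch E (B i j) (B (i + 1) j)) ∧
  ∀ i j, i < r → j + 1 < r → Tch E (B i j) (B i (j + 1))

/-- `P 0, …, P n` is a simple path -/
def Pth {V : Type} (E : V → V → Prop) (P : ℕ → V) (n : ℕ) : Prop :=
  (∀ t < n, E (P t) (P (t + 1))) ∧ ∀ s ≤ n, ∀ t ≤ n, P s = P t → s = t

/-- a system of `p` disjoint simple paths from `A` to `B` -/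
structure PSys {V : Type} (E : V → V → Prop) (p : ℕ) (A B : Set V) (P : Fin p → ℕ → V)
    (len : Fin p → ℕ) : Prop where
  pth : ∀ j, Pth E (P j) (len j)
  st : ∀ j, P j 0 ∈ A
  en : ∀ j, P j (len j) ∈ B
  dj : ∀ j j', j ≠ j' → ∀ s ≤ len j, ∀ t ≤ len j', P j s ≠ P j' t

/-- the pattern: `N` rows and `d` columns of disjoint connected sets `S j i`, the sets of a row are
adjacent to their successors, the sets of the column `i` lie in the connected set `W i` -/
structure Pat {V : Type} (E : V → V → Prop) (N d : ℕ) (S : Fin N → ℕ → Set V) (W : ℕ → Set V) :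
    Prop where
  cn : ∀ j, ∀ i < d, Cn E (S j i)
  cnW : ∀ i < d, Cn E (W i)
  sub : ∀ j, ∀ i < d, S j i ⊆ W i
  dj : ∀ j j', j ≠ j' → ∀ i < d, Disjoint (S j i) (S j' i)
  djW : ∀ i < d, ∀ i' < d, i ≠ i' → Disjoint (W i) (W i')
  nx : ∀ j i, i + 1 < d → Tch E (S j i) (S j (i + 1))

/-- the edge `ab` is deleted -/
def del {V : Type} (D : V → V → Prop) (a b : V) (u v : V) : Prop :=
  D u v ∧ ¬ (u = a ∧ v = b) ∧ ¬ (u = b ∧ v = a)

/-- the relation restricted to `C` -/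
def rs {V : Type} (E : V → V → Prop) (C : Set V) (u v : V) : Prop := E u v ∧ u ∈ C ∧ v ∈ C

/-- the neighbours of `C` outside `C` -/
def Nb {V : Type} (E : V → V → Prop) (C : Set V) : Set V := {v | v ∉ C ∧ ∃ c ∈ C, E v c}

/-- the number of the neighbours of `u` in `U` -/
noncomputable def dg {V : Type} (T : V → V → Prop) (U : Set V) (u : V) : ℕ :=
  {v | v ∈ U ∧ T u v}.ncard

/-- `C` is connected, `U` is a connected subgraph (with the edges of `T`) of maximum degree at most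
three outside `C` which contains all neighbours of `C`; they have at most two neighbours in `U`, and one
of them has at most one -/
structure Pre {V : Type} (E : V → V → Prop) (C U : Set V) (T : V → V → Prop) : Prop where
  cnC : Cn E C
  cnU : Cn T U
  sy : Sy T
  le : ∀ u v, T u v → E u v
  dj : Disjoint U C
  nb : Nb E C ⊆ U
  d3 : ∀ u ∈ U, dg T U u ≤ 3
  d2 : ∀ u ∈ Nb E C, dg T U u ≤ 2
  d1 : ∃ u ∈ Nb E C, dg T U u ≤ 1

/-- `C` has a `Pre` and at most `h` neighbours -/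
def PreH {V : Type} (E : V → V → Prop) (h : ℕ) (C : Set V) : Prop :=
  (∃ U T, Pre E C U T) ∧ (Nb E C).ncard ≤ h

/-- the edges of `C ∪ Y ∪ Z` with an end in `C` -/
def HH {V : Type} (E : V → V → Prop) (C Y Z : Set V) (u v : V) : Prop :=
  E u v ∧ u ∈ C ∪ Y ∪ Z ∧ v ∈ C ∪ Y ∪ Z ∧ (u ∈ C ∨ v ∈ C)

/-- a mesh of order `h` -/
def Mesh {V : Type} (E : V → V → Prop) (k h : ℕ) (C U : Set V) (T : V → V → Prop) : Prop :=
  Pre E C U T ∧ (Nb E C).ncard = h ∧ ∀ Y Z : Set V, Y ⊆ Nb E C → Z ⊆ Nb E C → Y.ncard = k →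
    Z.ncard = k → Lnk (HH E C Y Z) k Y Z

/-- `C'` is a component of `C \ S` -/
def Cmp {V : Type} (E : V → V → Prop) (C S C' : Set V) : Prop :=
  ∃ y ∈ C \ S, C' = {z | RIn E (C \ S) y z}

/-! ## Basic facts -/

section basic

variable {V : Type} {E E' : V → V → Prop} {S S' A B C : Set V} {x y z : V}

theorem RIn.sy (hE : Sy E) (h : RIn E S x y) : RIn E S y x :=
  RIn.mono (D := fun a b => E b a) h.rev (fun u v h _ _ => hE v u h) (le_refl _)

theorem Cn.mono (h : Cn E S) (hE : ∀ u v, u ∈ S → v ∈ S → E u v → E' u v) : Cn E' S :=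
  ⟨h.1, fun x hx y hy => (h.2 x hx y hy).mono (fun u v h1 hu hv => hE u v hu hv h1) (le_refl _)⟩

theorem Cn.single (x : V) : Cn E {x} :=
  ⟨Set.singleton_nonempty x, fun y hy z hz => by
    rw [Set.mem_singleton_iff] at hy hz
    subst hy hz
    exact RIn.refl rfl⟩

/-- everything can be reached from one vertex -/
theorem Cn.of_root (hE : Sy E) (hx : x ∈ S) (h : ∀ y ∈ S, RIn E S x y) : Cn E S :=
  ⟨⟨x, hx⟩, fun y hy z hz => (RIn.sy hE (h y hy)).trans (h z hz)⟩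

theorem Cn.union_touch (hE : Sy E) (hA : Cn E A) (hB : Cn E B) (h : Tch E A B) : Cn E (A ∪ B) := by
  obtain ⟨a, ha, b, hb, hab⟩ := h
  refine Cn.of_root hE (x := a) (Or.inl ha) ?_
  rintro y (hy | hy)
  · exact (hA.2 a ha y hy).mono_set Set.subset_union_left
  · exact RIn.head hab (Or.inl ha) ((hB.2 b hb y hy).mono_set Set.subset_union_right)

theorem Cn.union_meet (hE : Sy E) (hA : Cn E A) (hB : Cn E B) (h : (A ∩ B).Nonempty) :
    Cn E (A ∪ B) := by
  obtain ⟨a, ha, hb⟩ := h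
  refine Cn.of_root hE (x := a) (Or.inl ha) ?_
  rintro y (hy | hy)
  · exact (hA.2 a ha y hy).mono_set Set.subset_union_left
  · exact (hB.2 a hb y hy).mono_set Set.subset_union_right

/-- a union of connected sets each of which meets or touches a connected set `A` -/
theorem Cn.iUnion {ι : Type} (hE : Sy E) (hA : Cn E A) {F : ι → Set V} (hF : ∀ i, Cn E (F i))
    (h : ∀ i, (A ∩ F i).Nonempty ∨ Tch E A (F i)) : Cn E (A ∪ ⋃ i, F i) := by
  obtain ⟨a, ha⟩ := hA.1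
  refine Cn.of_root hE (x := a) (Or.inl ha) ?_
  rintro y (hy | hy)
  · exact (hA.2 a ha y hy).mono_set Set.subset_union_left
  · obtain ⟨i, hy⟩ := Set.mem_iUnion.1 hy
    have h1 : Cn E (A ∪ F i) := by
      rcases h i with h | h
      · exact Cn.union_meet hE hA (hF i) h
      · exact Cn.union_touch hE hA (hF i) h
    exact (h1.2 a (Or.inl ha) y (Or.inr hy)).mono_set
      (Set.union_subset_union_right _ (Set.subset_iUnion F i))

/-- the vertices which can be reached from `x` inside `S` -/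
theorem Cn.comp (hE : Sy E) (hx : x ∈ S) : Cn E {z | RIn E S x z} := by
  have key : ∀ y, RIn E S x y → RIn E {z | RIn E S x z} x y := by
    rintro y ⟨h1, h2⟩
    induction h2 with
    | refl => exact RIn.refl (RIn.refl h1)
    | @tail b c h3 h4 ih =>
      exact ih.tail h4.1 (show RIn E S x c from ⟨h1, h3.tail h4⟩)
  exact Cn.of_root hE (x := x) (RIn.refl hx) key

theorem Tch.sy (hE : Sy E) (h : Tch E A B) : Tch E B A := by
  obtain ⟨a, ha, b, hb, hab⟩ := h
  exact ⟨b, hb, a, ha, hE a b hab⟩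

theorem Tch.mono {A' B' : Set V} (h : Tch E A B) (hA : A ⊆ A') (hB : B ⊆ B') : Tch E A' B' := by
  obtain ⟨a, ha, b, hb, hab⟩ := h
  exact ⟨a, hA ha, b, hB hb, hab⟩

/-- if a walk inside `S` leads from `A` to `y ∉ A`, then `A` touches `S \ A` -/
theorem Cn.touch_of_not_subset (hS : Cn E S) (hx : x ∈ S) (hxA : x ∈ A) (hy : y ∈ S) (hyA : y ∉ A) :
    Tch E (S ∩ A) (S \ A) := by
  obtain ⟨u, v, h1, h2, h3, h4, h5⟩ := (hS.2 x hx y hy).enter (T := Aᶜ) (by simpa using hxA) hyA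
  refine ⟨u, ⟨h1.right_mem.1, ?_⟩, v, ⟨h5.left_mem, h4⟩, h3⟩
  simpa using h2

theorem rs_sy (hE : Sy E) : Sy (rs E C) := fun u v h => ⟨hE u v h.1, h.2.2, h.2.1⟩

theorem del_sy {a b : V} (hE : Sy E) : Sy (del E a b) := fun u v h =>
  ⟨hE u v h.1, fun h1 => h.2.2 ⟨h1.2, h1.1⟩, fun h1 => h.2.1 ⟨h1.2, h1.1⟩⟩

theorem HH_sy {Y Z : Set V} (hE : Sy E) : Sy (HH E C Y Z) := fun u v h =>
  ⟨hE u v h.1, h.2.2.1, h.2.1, h.2.2.2.symm⟩

theorem Cmp.cn (hE : Sy E) {C' : Set V} (h : Cmp E C S C') : Cn E C' := by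
  obtain ⟨y, hy, rfl⟩ := h
  exact Cn.comp hE hy

theorem Cmp.sub {C' : Set V} (h : Cmp E C S C') : C' ⊆ C \ S := by
  obtain ⟨y, hy, rfl⟩ := h
  exact fun z hz => RIn.right_mem hz

/-- a component absorbs the neighbours in `C \ S` -/
theorem Cmp.absorb {C' : Set V} (h : Cmp E C S C') (hx : x ∈ C') (hy : y ∈ C \ S) (hxy : E x y) :
    y ∈ C' := by
  obtain ⟨z, hz, rfl⟩ := h
  exact RIn.tail hx hxy hy

theorem Cmp.exists {y : V} (hy : y ∈ C \ S) : ∃ C', Cmp E C S C' ∧ y ∈ C' :=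
  ⟨_, ⟨y, hy, rfl⟩, RIn.refl hy⟩

theorem Cmp.eq_of_mem (hE : Sy E) {C₁ C₂ : Set V} (h₁ : Cmp E C S C₁) (h₂ : Cmp E C S C₂)
    (hx : x ∈ C₁) (hx' : x ∈ C₂) : C₁ = C₂ := by
  obtain ⟨y, hy, rfl⟩ := h₁
  obtain ⟨z, hz, rfl⟩ := h₂
  have h1 : RIn E (C \ S) y z := RIn.trans hx (RIn.sy hE hx')
  ext w
  exact ⟨fun hw => (RIn.sy hE h1).trans hw, fun hw => h1.trans hw⟩

/-- the neighbours of a component lie in `Nb C ∪ (S ∩ C)` -/
theorem Cmp.nb_sub (hE : Sy E) {C' : Set V} (h : Cmp E C S C') : Nb E C' ⊆ Nb E C ∪ (S ∩ C) := by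
  rintro v ⟨hv, c, hc, hvc⟩
  by_cases hC : v ∈ C
  · by_cases hS : v ∈ S
    · exact Or.inr ⟨hS, hC⟩
    · exact absurd (h.absorb hc ⟨hC, hS⟩ (hE v c hvc)) hv
  · exact Or.inl ⟨hC, c, (h.sub hc).1, hvc⟩

end basic

end Pool.Agent.H10.GM
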