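import Pool.Agent.H10.GM.Defs

/-!
# The excluded grid theorem: targets
-/

set_option autoImplicit false

namespace Pool.Agent.H10.GM

open Pool.Agent.H55.GW

/-! ### Part I: the pattern -/

/-- PS: a large connected graph contains a path with `r` vertices or a vertex with `r` neighbours -/
def T_PS : Prop := ∀ r : ℕ, ∃ N : ℕ, 0 < N ∧ ∀ R : Fin N → Fin N → Prop, Sy R →
  (∀ x y, Relation.ReflTransGen R x y) →
    (∃ t : ℕ → Fin N, (∀ i < r, ∀ j < r, t i = t j → i = j) ∧ ∀ i, i + 1 < r → R (t i) (t (i + 1))) ∨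
    ∃ (x : Fin N) (t : ℕ → Fin N), (∀ i < r, ∀ j < r, t i = t j → i = j) ∧
      ∀ i < r, t i ≠ x ∧ R x (t i)

/-- GT: a good tuple -/
def T_GT : Prop := ∀ r : ℕ, ∃ N : ℕ, 0 < N ∧ ∀ (V : Type) (E : V → V → Prop), Sy E →
  ∀ (W : Set V) (S : Fin N → Set V), Cn E W → (∀ j, Cn E (S j) ∧ S j ⊆ W) →
    (∀ j j', j ≠ j' → Disjoint (S j) (S j')) →
      ∃ (t : ℕ → Fin N) (L : ℕ → Set V), (∀ i < r, ∀ j < r, t i = t j → i = j) ∧
        ∀ i, i + 1 < r → L i ⊆ W ∧ (∀ j < r, Disjoint (L i) (S (t j))) ∧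
          Cn E (S (t i) ∪ L i) ∧ Tch E (S (t i) ∪ L i) (S (t (i + 1)))

/-- PAT: a large pattern gives a grid -/
def T_PAT : Prop := ∀ r : ℕ, ∃ N d : ℕ, 0 < N ∧ 0 < d ∧ ∀ (V : Type) (E : V → V → Prop), Sy E →
  ∀ (S : Fin N → ℕ → Set V) (W : ℕ → Set V), Pat E N d S W → GrM r E

/-- SEG: disjoint paths and connected sets which meet them in order give a pattern -/
def T_SEG : Prop := ∀ (N d : ℕ) (V : Type) (E : V → V → Prop), Sy E →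
  ∀ (P : Fin N → ℕ → V) (len : Fin N → ℕ) (Vt : ℕ → Set V), (∀ j, Pth E (P j) (len j)) →
    (∀ j j', j ≠ j' → ∀ s ≤ len j, ∀ t ≤ len j', P j s ≠ P j' t) →
    (∀ n < d, Cn E (Vt n)) → (∀ n < d, ∀ n' < d, n ≠ n' → Disjoint (Vt n) (Vt n')) →
    (∀ n < d, ∀ j, ∃ t ≤ len j, P j t ∈ Vt n) →
    (∀ n n', n < n' → n' < d → ∀ j, ∀ s ≤ len j, ∀ t ≤ len j, P j s ∈ Vt n → P j t ∈ Vt n' →
      s < t) →
      ∃ (S : Fin N → ℕ → Set V) (W : ℕ → Set V), Pat E N d S W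

/-! ### Part II: crossing paths -/

/-- PTH: disjoint walks contain disjoint simple paths -/
def T_PTH : Prop := ∀ (V : Type) (D : V → V → Prop) (p : ℕ) (A B : Set V), Lnk D p A B →
  ∃ (P : Fin p → ℕ → V) (len : Fin p → ℕ), PSys D p A B P len

/-- CRA: a minimal relation between `K` and `E` with `p` disjoint paths -/
def T_CRA : Prop := ∀ (V : Type) [Finite V] (E K : V → V → Prop), Sy E → Sy K →
  (∀ u v, K u v → E u v) → ∀ (p : ℕ) (A B : Set V), Lnk E p A B →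
    ∃ D : V → V → Prop, Sy D ∧ (∀ u v, K u v → D u v) ∧ (∀ u v, D u v → E u v) ∧ Lnk D p A B ∧
      ∀ a b, D a b → ¬ K a b → ∃ S : Finset V, S.card < p ∧ Sep (del D a b) (S : Set V) A B

/-- CRB: the two sides of a separator -/
def T_CRB : Prop := ∀ (V : Type) (D K : V → V → Prop), Sy D → Sy K →
  (∀ u v, K u v → D u v) → ∀ (p : ℕ) (A B : Set V) (P : Fin p → ℕ → V) (len : Fin p → ℕ),
    PSys D p A B P len → ∀ (q : Fin p) (m : ℕ), m < len q → ¬ K (P q m) (P q (m + 1)) →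
    ∀ S : Finset V, S.card < p → Sep (del D (P q m) (P q (m + 1))) (S : Set V) A B →
      ∃ x : Fin p → ℕ, ∀ X : Set V, Cn K X → (∀ v ∈ X, v ∉ S) →
        ((∃ s ≤ m, P q s ∈ X) → ∀ j, ∀ t ≤ len j, P j t ∈ X → t ≤ x j) ∧
        ((∃ s, m < s ∧ s ≤ len q ∧ P q s ∈ X) → ∀ j, ∀ t ≤ len j, P j t ∈ X → x j < t)

/-- CRC: many sets which meet the paths contain `d` sets which meet them in order -/
def T_CRC : Prop := ∀ (V : Type) [Finite V] (E : V → V → Prop), Sy E →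
  ∀ (I : Type) [Finite I] (Vt : I → Set V), (∀ i, Cn E (Vt i)) →
    (∀ i i', i ≠ i' → Disjoint (Vt i) (Vt i')) → ∀ (p : ℕ) (A B : Set V), Lnk E p A B →
    ∃ (P : Fin p → ℕ → V) (len : Fin p → ℕ), PSys E p A B P len ∧
      ∀ (d : ℕ) (J : Set (Fin p)) (I' : Finset I), 0 < d → J.Nonempty → d * (d * p) ≤ I'.card →
        (∀ i ∈ I', ∀ j ∈ J, ∃ t ≤ len j, P j t ∈ Vt i) →
          ∃ v : ℕ → I, (∀ n < d, v n ∈ I') ∧ ∀ n n', n < n' → n' < d → ∀ j ∈ J, ∀ s ≤ len j,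
            ∀ t ≤ len j, P j s ∈ Vt (v n) → P j t ∈ Vt (v n') → s < t

/-- GRP: many disjoint sets each of which misses few of the paths give a grid -/
def T_GRP : Prop := ∀ r κ : ℕ, 0 < κ → ∃ p M : ℕ, κ ≤ p ∧ ∀ (V : Type) [Finite V]
  (E : V → V → Prop), Sy E →
  ∀ (I : Type) [Finite I] (Vt : I → Set V), (∀ i, Cn E (Vt i)) →
    (∀ i i', i ≠ i' → Disjoint (Vt i) (Vt i')) → ∀ (A B : Set V), Lnk E p A B →
    ∃ (P : Fin p → ℕ → V) (len : Fin p → ℕ), PSys E p A B P len ∧ ∀ I' : Finset I, M ≤ I'.card →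
      (∀ i ∈ I', {j : Fin p | ∀ t ≤ len j, P j t ∉ Vt i}.ncard < κ) → GrM r E

/-! ### Part III: selection -/

/-- the linking sets -/
def Con {V : Type} (E : V → V → Prop) (J : Finset ℕ) (X Y : ℕ → Set V) : Prop :=
  ∃ (x y : ℕ → V) (S : ℕ → Set V), (∀ j ∈ J, x j ∈ X j ∧ y j ∈ Y j ∧ RIn E (S j) (x j) (y j)) ∧
    ∀ i ∈ J, ∀ j ∈ J, i ≠ j → Disjoint (S i) (S j)

/-- SEL: large linkages contain one path each which are disjoint, or there is a grid -/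
def T_SEL : Prop := ∀ r n : ℕ, ∃ κ : ℕ, 0 < κ ∧ ∀ (V : Type) [Finite V] [Nonempty V]
  (E : V → V → Prop), Sy E →
  ∀ (J : Finset ℕ) (X Y : ℕ → Set V), J.card ≤ n → (∀ j ∈ J, Lnk E κ (X j) (Y j)) →
    GrM r E ∨ Con E J X Y

/-- SELS: the induction step of SEL -/
def T_SELS : Prop := ∀ r n κ : ℕ, 0 < κ →
  (∀ (V : Type) [Finite V] [Nonempty V] (E : V → V → Prop), Sy E →
    ∀ (J : Finset ℕ) (X Y : ℕ → Set V), J.card ≤ n → (∀ j ∈ J, Lnk E κ (X j) (Y j)) →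
      GrM r E ∨ Con E J X Y) →
  ∃ κ' : ℕ, 0 < κ' ∧ ∀ (V : Type) [Finite V] [Nonempty V] (E : V → V → Prop), Sy E →
    ∀ (J : Finset ℕ) (X Y : ℕ → Set V), J.card ≤ n + 1 → (∀ j ∈ J, Lnk E κ' (X j) (Y j)) →
      GrM r E ∨ Con E J X Y

/-! ### Part IV: complete minors -/

/-- KM: connected sets and disjoint links between them give a complete minor -/
def T_KM : Prop := ∀ (m : ℕ) (V : Type) (E : V → V → Prop), Sy E →
  ∀ (A : ℕ → Set V) (O : Set V), (∀ i < m, Cn E (A i) ∧ Disjoint (A i) O) →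
    (∀ i < m, ∀ j < m, i ≠ j → Disjoint (A i) (A j)) →
    ∀ (x y : ℕ → ℕ → V) (S : ℕ → ℕ → Set V),
    (∀ i j, i < j → j < m → x i j ∈ O ∧ y i j ∈ O ∧ (∃ a ∈ A i, E (x i j) a) ∧
      (∃ a ∈ A j, E (y i j) a) ∧ RIn (rs E O) (S i j) (x i j) (y i j)) →
    (∀ i j, i < j → j < m → ∀ i' j', i' < j' → j' < m → (i ≠ i' ∨ j ≠ j') →
      Disjoint (S i j) (S i' j')) →
      ∃ B : ℕ → Set V, (∀ i < m, Cn E (B i)) ∧
        (∀ i < m, ∀ j < m, i ≠ j → Disjoint (B i) (B j)) ∧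
        ∀ i < m, ∀ j < m, i ≠ j → Tch E (B i) (B j)

/-- KG: a complete minor contains a grid -/
def T_KG : Prop := ∀ (r : ℕ) (V : Type) (E : V → V → Prop), Sy E → ∀ B : ℕ → Set V,
  (∀ i < r * r, Cn E (B i)) → (∀ i < r * r, ∀ j < r * r, i ≠ j → Disjoint (B i) (B j)) →
    (∀ i < r * r, ∀ j < r * r, i ≠ j → Tch E (B i) (B j)) → GrM r E

/-! ### Part V: splitting a subcubic connected graph -/

/-- SPA: one piece -/
def T_SPA : Prop := ∀ (k : ℕ) (V : Type) [Finite V] (E : V → V → Prop), Sy E → ∀ U X : Set V,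
  0 < k → Cn E U → (∀ u ∈ U, dg E U u ≤ 3) → 3 * k ≤ (U ∩ X).ncard →
    ∃ A : Set V, Cn E A ∧ A ⊆ U ∧ k ≤ (A ∩ X).ncard ∧ (A ∩ X).ncard ≤ 3 * k ∧
      (U \ A = ∅ ∨ Cn E (U \ A))

/-- SPL: many pieces -/
def T_SPL : Prop := ∀ (k m : ℕ) (V : Type) [Finite V] (E : V → V → Prop), Sy E → ∀ U X : Set V,
  0 < k → Cn E U → (∀ u ∈ U, dg E U u ≤ 3) → 3 * k * m ≤ (U ∩ X).ncard →
    ∃ A : ℕ → Set V, (∀ i < m, Cn E (A i) ∧ A i ⊆ U ∧ k ≤ (A i ∩ X).ncard) ∧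
      ∀ i < m, ∀ j < m, i ≠ j → Disjoint (A i) (A j)

/-! ### Part VI: meshes -/

/-- MSM: a minimum separator and disjoint walks to it from both sides -/
def T_MSM : Prop := ∀ (V : Type) [Finite V] (D : V → V → Prop), Sy D → ∀ (k : ℕ) (Y Z : Set V),
  ¬ Lnk D k Y Z → ∃ S : Finset V, S.card < k ∧ Sep D (S : Set V) Y Z ∧
    (∀ Q, Q = Y ∨ Q = Z → ∃ (y : V → V) (P : V → Set V),
      (∀ s ∈ S, y s ∈ Q ∧ RIn D (P s) (y s) s ∧ P s ∩ (S : Set V) = {s}) ∧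
      ∀ s ∈ S, ∀ s' ∈ S, s ≠ s' → Disjoint (P s) (P s'))

/-- MSP: a separator in `C` and disjoint paths through `C` to it from both sides -/
def T_MSP : Prop := ∀ (V : Type) [Finite V] (E : V → V → Prop), Sy E → ∀ (k : ℕ) (C Y Z : Set V),
  Disjoint Y C → Disjoint Z C → ¬ Lnk (HH E C Y Z) k Y Z →
    ∃ S : Finset V, S.card < k ∧ Sep (HH E C Y Z) (S : Set V) Y Z ∧
      ∀ Q, Q = Y ∨ Q = Z → ∃ (P : V → ℕ → V) (len : V → ℕ),
        (∀ s ∈ S, s ∈ C → 0 < len s ∧ Pth E (P s) (len s) ∧ P s 0 ∈ Q ∧ P s 0 ∉ S ∧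
          P s (len s) = s ∧ ∀ t, 0 < t → t < len s → P s t ∈ C ∧ P s t ∉ S) ∧
        ∀ s ∈ S, s ∈ C → ∀ s' ∈ S, s' ∈ C → s ≠ s' → ∀ t ≤ len s, ∀ t' ≤ len s', P s t ≠ P s' t'

/-- EXT: the subcubic connected graph is extended by disjoint paths into `C` -/
def T_EXT : Prop := ∀ (V : Type) [Finite V] (E : V → V → Prop), Sy E → ∀ (C U : Set V)
  (T : V → V → Prop) (C' S : Set V) (P : V → ℕ → V) (len : V → ℕ), Pre E C U T → Cn E C' →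
    C' ⊆ C → S ⊆ C → Nb E C' ⊆ Nb E C ∪ S → (Nb E C' ∩ S).Nonempty →
    (∀ s ∈ S, 0 < len s ∧ Pth E (P s) (len s) ∧ P s 0 ∈ U ∧ P s (len s) = s ∧
      (∀ t, 0 < t → t ≤ len s → P s t ∈ C ∧ P s t ∉ C') ∧ dg T U (P s 0) ≤ 2 ∧
        (P s 0 ∈ Nb E C' → dg T U (P s 0) ≤ 1)) →
    (∀ s ∈ S, ∀ s' ∈ S, s ≠ s' → ∀ t ≤ len s, ∀ t' ≤ len s', P s t ≠ P s' t') →
      ∃ U' T', Pre E C' U' T'

/-- MSA: the step for fewer than `h` neighbours -/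
def T_MSA : Prop := ∀ (V : Type) [Finite V] (E : V → V → Prop), Sy E → ∀ (h : ℕ) (C : Set V),
  (∃ U T, Pre E C U T) → (Nb E C).ncard < h → ∃ v ∈ C, ∀ C', Cmp E C {v} C' → PreH E h C'

/-- MSB: the step for exactly `h` neighbours -/
def T_MSB : Prop := ∀ (V : Type) [Finite V] (E : V → V → Prop), Sy E → ∀ (k h : ℕ) (C U : Set V)
  (T : V → V → Prop), Pre E C U T → (Nb E C).ncard = h → ¬ Mesh E k h C U T →
    ∃ S : Set V, S.ncard < k ∧ (S ∩ C).Nonempty ∧ ∀ C', Cmp E C S C' → PreH E h C'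

/-- LNC: a linkage through `C` gives a linkage in `C` -/
def T_LNC : Prop := ∀ (V : Type) (E : V → V → Prop), Sy E → ∀ (k : ℕ) (C Y Z : Set V),
  Disjoint Y C → Disjoint Z C → Disjoint Y Z → Lnk (HH E C Y Z) k Y Z →
    Lnk (rs E C) k {c | c ∈ C ∧ ∃ a ∈ Y, E c a} {c | c ∈ C ∧ ∃ a ∈ Z, E c a}

/-- MGR: a large mesh gives a grid -/
def T_MGR : Prop := ∀ r : ℕ, ∃ k h : ℕ, 0 < h ∧ ∀ (V : Type) [Finite V] (E : V → V → Prop), Sy E →
  ∀ (C U : Set V) (T : V → V → Prop), Mesh E k h C U T → GrM r E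

end Pool.Agent.H10.GM
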