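import Pool.Agent.H10.GM.Targets1
import Pool.Agent.H8.MC.Defs

/-!
# The excluded grid theorem: from graphs without a mesh to NLC-width
-/

set_option autoImplicit false

namespace Pool.Agent.H10.GM

open Pool.Agent.H55.GW Pool.Agent.H8.VR Pool.Agent.H8.MC

open Classical in
/-- the sets of labels are the colours -/
noncomputable def code (w : ℕ) : Set (Fin w) ≃ Fin (2 ^ w) := Fintype.equivFinOfCardEq (by simp)

/-- the graph on `C` has an expression such that the final colour of a vertex is the set of the labels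
of its neighbours outside `C`, for all labellings of the neighbours of `C` by different labels below
`w` -/
def HN {V : Type} (E : V → V → Prop) (w : ℕ) (C : Set V) : Prop :=
  ∀ β : V → Fin w, Set.InjOn β (Nb E C) → ∃ c : V → Fin (2 ^ w),
    NLC (2 ^ w) 1 (fun _ => E) C c ∧ ∀ a ∈ C, c a = code w (β '' {x | x ∈ Nb E C ∧ E a x})

/-- NLR: recolouring -/
def T_NLR : Prop := ∀ (V : Type) (k m : ℕ) (R : ℕ → V → V → Prop) (X : Set V) (c c' : V → Fin k)
  (F : Fin k → Fin k), NLC k m R X c → (∀ a ∈ X, c' a = F (c a)) → NLC k m R X c'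

/-- NLU: disjoint unions -/
def T_NLU : Prop := ∀ (V : Type) (k : ℕ) (E : V → V → Prop), Sy E → ∀ (F : Finset (Set V))
  (c : V → Fin k), F.Nonempty → (∀ X ∈ F, NLC k 1 (fun _ => E) X c) →
    (∀ X ∈ F, ∀ Y ∈ F, X ≠ Y → Disjoint X Y ∧ ¬ Tch E X Y) →
      NLC k 1 (fun _ => E) (⋃ X ∈ F, X) c

/-- NLA: one more vertex of the bag `Bg` -/
def T_NLA : Prop := ∀ (V : Type) (w : ℕ) (E : V → V → Prop), Sy E → ∀ (Bg X : Set V) (v : V)
  (β : V → Fin w) (c : V → Fin (2 ^ w)), Set.InjOn β Bg → v ∈ Bg → v ∉ X →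
    (∀ a ∈ X ∪ {v}, c a = code w (β '' {x | x ∈ Bg ∧ E a x})) →
      NLC (2 ^ w) 1 (fun _ => E) X c → NLC (2 ^ w) 1 (fun _ => E) (X ∪ {v}) c

/-- NLS: the step -/
def T_NLS : Prop := ∀ (V : Type) [Finite V] (E : V → V → Prop), Sy E → ∀ (w : ℕ) (C S : Set V),
  C.Nonempty → (Nb E C ∪ (S ∩ C)).ncard ≤ w → (∀ C', Cmp E C S C' → HN E w C') → HN E w C

/-- MSH: the recursion -/
def T_MSH : Prop := ∀ (V : Type) [Finite V] (E : V → V → Prop), Sy E → ∀ k h : ℕ,
  (∀ C U T, ¬ Mesh E k h C U T) → ∀ C, PreH E h C → HN E (h + k) C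

/-- TOP: the whole graph -/
def T_TOP : Prop := ∀ (V : Type) [Finite V] [Nonempty V] (E : V → V → Prop), Sy E → ∀ w : ℕ, 0 < w →
  (∀ C, PreH E 1 C → HN E w C) → ∃ c, NLC (2 ^ w) 1 (fun _ => E) Set.univ c

/-- GMI: grid minors -/
def T_GMI : Prop := ∀ (V : Type) (G : SimpleGraph V) (r : ℕ), GrM r G.Adj → Minor (grid r) G

/-- GRF: the final step -/
def T_GRF : Prop := T_MGR → T_MSH → T_TOP → T_GMI → T_GRID

end Pool.Agent.H10.GM
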